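import Pool.Agent.H37.CNM.Stmts

/-!
# Board cnm, row APD
-/

set_option autoImplicit false

namespace Pool.CND

/-- row APD -/
theorem apd_thm (hALP : S_ALP) (hZUW : S_ZUW) : S_APD := by
  intro p k G _ _ _ _ _ A hp hp2 hcd hA
  obtain ⟨n, hn⟩ := hcd
  have hdvd : (Subgroup.centralizer (A : Set G)).index ∣ p ^ n := by
    rw [← hn]
    exact Subgroup.index_dvd_card _
  obtain ⟨a, -, ha⟩ := (Nat.dvd_prime_pow hp).1 hdvd
  rw [ha]
  refine hZUW p a k G hp ⟨n, hn⟩ fun z hz hzp hz1 => ?_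
  refine ⟨Subgroup.centralizer (A : Set G), ?_, ?_, by rw [ha]⟩
  · rw [Subgroup.mem_centralizer_iff]
    intro h _
    exact Subgroup.mem_center_iff.1 hz h
  · refine ⟨⊥, bot_le, ?_, ?_, Or.inr ⟨hp2, ?_⟩⟩
    · intro h _ x hx
      rw [Subgroup.mem_bot] at hx ⊢
      rw [hx]
      group
    · rwa [Subgroup.mem_bot]
    · intro x hx hxp h hh
      rw [Subgroup.mem_bot] at hxp ⊢
      have hxA : x ∈ A := hALP p G A hp hp2 ⟨n, hn⟩ hA x
        (fun a ha' => ((Subgroup.mem_centralizer_iff.1 hx) a ha').symm) hxp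
      have h1 : x * h = h * x := (Subgroup.mem_centralizer_iff.1 hh) x hxA
      rw [← h1]
      group

end Pool.CND
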